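import Mathlib
import Pool.Agent.H773.LK.Spec3

/-!
# `S_SAB`: the selfadjoint operator `B⁻¹ - c`
-/

set_option autoImplicit false

noncomputable section

namespace Pool.Agent.H302.LK

open MeasureTheory Filter Topology Set
open scoped ENNReal NNReal ComplexConjugate InnerProductSpace
open Pool.Agent.H773.LK

variable {H : Type} [NormedAddCommGroup H] [InnerProductSpace ℂ H] [CompleteSpace H]

lemma sa_inner {B : H →L[ℂ] H} (hB : IsSelfAdjoint B) (x y : H) : ⟪B x, y⟫_ℂ = ⟪x, B y⟫_ℂ := by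
  have h := ContinuousLinearMap.adjoint_inner_left B y x
  have e : ContinuousLinearMap.adjoint B = B := hB
  rw [e] at h
  exact h

lemma dense_range_sa {B : H →L[ℂ] H} (hB : IsSelfAdjoint B) (hi : Function.Injective B) :
    DenseRange B := by
  have h1 : (LinearMap.range (B : H →ₗ[ℂ] H))ᗮ = ⊥ := by
    rw [Submodule.eq_bot_iff]
    intro x hx
    have h2 : B x = 0 := by
      have h3 : ⟪B (B x), x⟫_ℂ = 0 :=
        (Submodule.mem_orthogonal _ x).1 hx (B (B x)) ⟨B x, rfl⟩
      rw [sa_inner hB] at h3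
      exact inner_self_eq_zero.1 h3
    exact hi (by rw [h2, map_zero])
  have h2 := (Submodule.topologicalClosure_eq_top_iff (K := LinearMap.range (B : H →ₗ[ℂ] H))).2 h1
  have h3 := Submodule.dense_iff_topologicalClosure_eq_top.2 h2
  exact h3

theorem t_SAB : S_SAB := by
  intro H _ _ _ B hB hi c R hR
  -- the graph
  let L : H × H →ₗ[ℂ] H := (B : H →ₗ[ℂ] H) ∘ₗ (LinearMap.snd ℂ H H + (c : ℂ) • LinearMap.fst ℂ H H)
    - LinearMap.fst ℂ H H
  let g : Submodule ℂ (H × H) := LinearMap.ker L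
  have hg : ∀ u v : H, (u, v) ∈ g ↔ B (v + (c : ℂ) • u) = u := by
    intro u v
    rw [LinearMap.mem_ker]
    show B (v + (c : ℂ) • u) - u = 0 ↔ _
    rw [sub_eq_zero]
  have hsv : ∀ x ∈ g, x.1 = 0 → x.2 = 0 := by
    rintro ⟨u, v⟩ hx h0
    simp only at h0 ⊢
    subst h0
    rw [hg] at hx
    have : B v = 0 := by simpa using hx
    exact hi (by rw [this, map_zero])
  let A : H →ₗ.[ℂ] H := g.toLinearPMap
  have hA : A.graph = g := g.toLinearPMap_graph_eq hsv
  have hgr : ∀ u v : H, (u, v) ∈ A.graph ↔ B (v + (c : ℂ) • u) = u := by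
    intro u v; rw [hA, hg]
  have hgrR : ∀ u v : H, (u, v) ∈ A.graph ↔ R u v := by
    intro u v; rw [hgr, hR]
  have hBx : ∀ x : H, (B x, x - (c : ℂ) • B x) ∈ A.graph := by
    intro x; rw [hgr]; congr 1; abel
  have hdom : ∀ x : H, B x ∈ A.domain := fun x => LinearPMap.mem_domain_of_mem_graph (hBx x)
  have hval : ∀ x : H, A ⟨B x, hdom x⟩ = x - (c : ℂ) • B x := by
    intro x
    have h1 := hBx x
    rw [LinearPMap.mem_graph_iff] at h1
    obtain ⟨y, h2, h3⟩ := h1
    have : y = ⟨B x, hdom x⟩ := Subtype.ext h2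
    rw [← this]
    exact h3
  have hdense : Dense (A.domain : Set H) := by
    refine (dense_range_sa hB hi).mono ?_
    rintro _ ⟨x, rfl⟩
    exact hdom x
  have hgB : ∀ y : A.domain, B (A y + (c : ℂ) • (y : H)) = y := by
    intro y
    rw [← hgr]
    exact A.mem_graph y
  refine ⟨A, hgrR, hdense, ?_⟩
  rw [LinearPMap.isSelfAdjoint_def]
  refine le_antisymm ?_ ?_
  · refine LinearPMap.le_of_le_graph ?_
    rintro ⟨w, w'⟩ hw
    rw [LinearPMap.mem_graph_iff] at hw
    obtain ⟨y, h1, h2⟩ := hw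
    simp only at h1 h2
    rw [hgr]
    have h3 := LinearPMap.adjoint_isFormalAdjoint hdense
    have h4 : ∀ x : H, ⟪B (w' + (c : ℂ) • w), x⟫_ℂ = ⟪w, x⟫_ℂ := by
      intro x
      have h5 := h3 y ⟨B x, hdom x⟩
      rw [hval, h1, h2] at h5
      have h6 : ⟪w', B x⟫_ℂ = ⟪w, x - (c : ℂ) • B x⟫_ℂ := h5
      rw [sa_inner hB, inner_add_left, inner_smul_left, h6, inner_sub_right, inner_smul_right,
        Complex.conj_ofReal]
      ring
    exact ext_inner_right ℂ h4
  · refine LinearPMap.IsFormalAdjoint.le_adjoint hdense ?_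
    intro x y
    have h1 := hgB x
    have h2 := hgB y
    show ⟪A x, (y : H)⟫_ℂ = ⟪(x : H), A y⟫_ℂ
    have h3 : ⟪A x + (c : ℂ) • (x : H), (y : H)⟫_ℂ = ⟪(x : H), A y + (c : ℂ) • (y : H)⟫_ℂ := by
      conv_lhs => rw [← h2]
      conv_rhs => rw [← h1]
      exact (sa_inner hB _ _).symm
    rw [inner_add_left, inner_add_right, inner_smul_left, inner_smul_right,
      Complex.conj_ofReal] at h3
    exact add_right_cancel h3

end Pool.Agent.H302.LK
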