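import Mathlib
import Pool.Agent.H302.LK.SAB

/-!
# `S_SMX`: spectral measures of `B⁻¹ - c`
-/

set_option autoImplicit false

noncomputable section

namespace Pool.Agent.H302.LK

open MeasureTheory Filter Topology Set
open scoped ENNReal NNReal ComplexConjugate InnerProductSpace
open Pool.Agent.H773.LK

variable {H : Type} [NormedAddCommGroup H] [InnerProductSpace ℂ H] [CompleteSpace H]

lemma spec_nonneg {B : H →L[ℂ] H} (hB : IsSelfAdjoint B) (hp : ∀ f, 0 ≤ (⟪B f, f⟫_ℂ).re) :
    ∀ x ∈ spectrum ℝ B, 0 ≤ x := by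
  have h1 : 0 ≤ B := by
    rw [ContinuousLinearMap.nonneg_iff_isPositive, ContinuousLinearMap.isPositive_iff_complex]
    intro x
    have h2 : conj (⟪B x, x⟫_ℂ) = ⟪B x, x⟫_ℂ := by
      rw [inner_conj_symm, sa_inner hB]
    refine ⟨?_, hp x⟩
    exact Complex.conj_eq_iff_re.1 h2
  exact fun x hx => spectrum_nonneg_of_nonneg h1 hx

lemma meas_neg {B : H →L[ℂ] H} (hB : IsSelfAdjoint B) (hp : ∀ f, 0 ≤ (⟪B f, f⟫_ℂ).re)
    {f : H} {ν : Measure ℝ} (h : SpM B f ν) : ν (Iio 0) = 0 := by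
  obtain ⟨h1, h2⟩ := h
  have hc : Continuous fun t : ℝ => max 0 (-t) := by fun_prop
  obtain ⟨h3, h4⟩ := h2 _ hc
  have h5 : cfc (fun t : ℝ => max 0 (-t)) B = 0 := by
    have h6 : (spectrum ℝ B).EqOn (fun t : ℝ => max 0 (-t)) (fun _ => 0) := by
      intro t ht
      have := spec_nonneg hB hp t ht
      show max 0 (-t) = 0
      rw [max_eq_left (by linarith)]
    rw [cfc_congr h6, cfc_const_zero]
  rw [h5] at h4
  simp only [zero_apply, inner_zero_right, Complex.ofReal_eq_zero] at h4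
  have h7 := (integral_eq_zero_iff_of_nonneg (fun t => le_max_left 0 (-t)) h3).1 h4
  refine measure_mono_null ?_ (ae_iff.1 h7)
  intro t ht
  have ht' : t < 0 := ht
  show ¬ (max 0 (-t) = (0 : ℝ → ℝ) t)
  rw [max_eq_right (by linarith)]
  simp only [Pi.zero_apply]
  intro h8
  linarith

lemma meas_zero {B : H →L[ℂ] H} (hB : IsSelfAdjoint B) (hi : Function.Injective B)
    {f : H} {ν : Measure ℝ} (h : SpM B f ν) : ν {0} = 0 := by
  obtain ⟨h1, h2⟩ := h
  have key : ∀ (g : H) (n : ℕ), √(ν.real {0}) ≤ ‖f - B g‖ + 1 / ((n : ℝ) + 1) * ‖g‖ := by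
    intro g n
    set N : ℝ := (n : ℝ) + 1 with hN
    have hNp : 0 < N := by positivity
    set φ : ℝ → ℝ := fun t => max 0 (1 - N * |t|) with hφ
    have hφc : Continuous φ := by fun_prop
    have hφ0 : ∀ t, 0 ≤ φ t := fun t => le_max_left _ _
    have hφ1 : ∀ t, φ t ≤ 1 := fun t => max_le zero_le_one (by
      have : 0 ≤ N * |t| := by positivity
      linarith)
    -- the integral
    have hφ2c : Continuous fun t => φ t * φ t := hφc.mul hφc
    obtain ⟨h3, h4⟩ := h2 _ hφ2c
    have h5 : ν.real {0} ≤ ∫ t, φ t * φ t ∂ν := by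
      have h6 : ∫ t, ({0} : Set ℝ).indicator (fun _ => (1 : ℝ)) t ∂ν = ν.real {0} := by
        rw [integral_indicator_const _ (measurableSet_singleton 0), smul_eq_mul, mul_one]
      rw [← h6]
      refine integral_mono ((integrable_const 1).indicator (measurableSet_singleton 0)) h3 ?_
      intro t
      by_cases ht : t = 0
      · subst ht
        simp [hφ]
      · simp only [indicator, mem_singleton_iff, ht, if_false]
        exact mul_nonneg (hφ0 t) (hφ0 t)
    have hsa : IsSelfAdjoint (cfc φ B) := cfc_predicate φ B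
    have h7 : cfc (fun t => φ t * φ t) B = cfc φ B * cfc φ B :=
      cfc_mul φ φ B hφc.continuousOn hφc.continuousOn
    have h8 : ∫ t, φ t * φ t ∂ν = ‖cfc φ B f‖ ^ 2 := by
      have h9 : ((∫ t, φ t * φ t ∂ν : ℝ) : ℂ) = ((‖cfc φ B f‖ ^ 2 : ℝ) : ℂ) := by
        rw [h4, h7]
        show ⟪f, cfc φ B (cfc φ B f)⟫_ℂ = _
        rw [← sa_inner hsa, inner_self_eq_norm_sq_to_K]
        push_cast
        rfl
      exact_mod_cast h9
    have h10 : ‖cfc φ B f‖ ≤ ‖f - B g‖ + 1 / N * ‖g‖ := by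
      have h11 : cfc φ B f = cfc φ B (f - B g) + cfc (fun t => φ t * t) B g := by
        have h12 : cfc (fun t => φ t * t) B = cfc φ B * B := by
          have := cfc_mul φ (fun t => t) B hφc.continuousOn continuousOn_id
          rw [this, cfc_id' ℝ B]
        rw [h12]
        show _ = cfc φ B (f - B g) + cfc φ B (B g)
        rw [← map_add, sub_add_cancel]
      have h13 : ‖cfc φ B‖ ≤ 1 := norm_cfc_le zero_le_one (fun t _ => by
        rw [Real.norm_eq_abs, abs_of_nonneg (hφ0 t)]; exact hφ1 t)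
      have h14 : ‖cfc (fun t => φ t * t) B‖ ≤ 1 / N := norm_cfc_le (by positivity) (fun t _ => by
        rw [Real.norm_eq_abs, abs_mul, abs_of_nonneg (hφ0 t)]
        by_cases ht : 1 - N * |t| ≤ 0
        · have : φ t = 0 := max_eq_left ht
          rw [this, zero_mul]; positivity
        · push Not at ht
          have h15 : |t| ≤ 1 / N := by
            rw [le_div_iff₀ hNp]; linarith
          calc φ t * |t| ≤ 1 * |t| := mul_le_mul_of_nonneg_right (hφ1 t) (abs_nonneg _)
            _ ≤ 1 / N := by rw [one_mul]; exact h15)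
      rw [h11]
      refine (norm_add_le _ _).trans (add_le_add ?_ ?_)
      · refine ((cfc φ B).le_opNorm _).trans ?_
        exact mul_le_of_le_one_left (norm_nonneg _) h13
      · refine ((cfc (fun t => φ t * t) B).le_opNorm _).trans ?_
        exact mul_le_mul_of_nonneg_right h14 (norm_nonneg _)
    refine Real.sqrt_le_iff.2 ⟨by positivity, ?_⟩
    rw [h8] at h5
    refine h5.trans ?_
    exact pow_le_pow_left₀ (norm_nonneg _) h10 2
  have key2 : ∀ g : H, √(ν.real {0}) ≤ ‖f - B g‖ := by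
    intro g
    have h3 : Tendsto (fun n : ℕ => ‖f - B g‖ + 1 / ((n : ℝ) + 1) * ‖g‖) atTop
        (𝓝 (‖f - B g‖ + 0 * ‖g‖)) :=
      tendsto_const_nhds.add (tendsto_one_div_add_atTop_nhds_zero_nat.mul_const _)
    rw [zero_mul, add_zero] at h3
    exact ge_of_tendsto' h3 (key g)
  have h0 : √(ν.real {0}) = 0 := by
    refine le_antisymm (le_of_forall_pos_le_add fun ε hε => ?_) (Real.sqrt_nonneg _)
    obtain ⟨g, hg⟩ := (dense_range_sa hB hi).exists_dist_lt f hε
    rw [dist_eq_norm] at hg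
    rw [zero_add]
    exact (key2 g).trans hg.le
  have h3 : ν.real {0} = 0 := by
    have h4 := Real.sqrt_eq_zero'.1 h0
    exact le_antisymm h4 measureReal_nonneg
  exact (measureReal_eq_zero_iff (measure_ne_top ν _)).1 h3

lemma alg {t w : ℂ} (ht : t ≠ 0) (hw : w ≠ 0) (h2 : 1 / t - w ≠ 0) :
    -(1 / w) * (1 + 1 / w * (1 / (t - 1 / w))) = (1 / t - w)⁻¹ := by
  have h3 : 1 - w * t ≠ 0 := by
    intro h
    apply h2
    field_simp
    linear_combination h
  have h4 : t - 1 / w = -(1 - w * t) / w := by field_simp; ring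
  have h5 : 1 / t - w = (1 - w * t) / t := by field_simp
  rw [h4, h5]
  field_simp
  ring

theorem t_SMX (hRES : S_RES) : S_SMX := by
  intro H _ _ _ B hB hi hp c f ν hν
  have hν' := hν
  have hneg := meas_neg hB hp hν
  have hzero := meas_zero hB hi hν
  have hIic : ν (Iic 0) = 0 := by
    rw [← Iio_union_right]
    exact measure_union_null hneg hzero
  refine ⟨hIic, ?_⟩
  intro z hz
  set w : ℂ := z + (c : ℂ) with hw
  have hwim : w.im ≠ 0 := by rw [hw]; simpa using hz
  have hw0 : w ≠ 0 := fun h => hwim (by rw [h]; rfl)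
  set ζ : ℂ := 1 / w with hζ
  have hζim : ζ.im ≠ 0 := by
    rw [hζ, one_div, Complex.inv_im]
    exact div_ne_zero (neg_ne_zero.2 hwim) (by simpa using hw0)
  have hζ0 : ζ ≠ 0 := fun h => hζim (by rw [h]; rfl)
  have hwζ : w * ζ = 1 := by rw [hζ]; field_simp
  obtain ⟨hunit, hres⟩ := hRES H B hB ζ hζim
  obtain ⟨T, hT⟩ := hunit
  -- the solution
  set u0 : H := (T⁻¹ : (H →L[ℂ] H)ˣ).val f with hu0
  have hT1 : ∀ x : H, (B - ζ • 1 : H →L[ℂ] H) ((T⁻¹ : (H →L[ℂ] H)ˣ).val x) = x := by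
    intro x
    rw [← hT]
    have h1 : (T.val * (T⁻¹ : (H →L[ℂ] H)ˣ).val) x = x := by rw [T.mul_inv]; rfl
    exact h1
  have hT2 : ∀ x : H, (B - ζ • 1 : H →L[ℂ] H) x = 0 → x = 0 := by
    intro x hx
    rw [← hT] at hx
    have h1 : ((T⁻¹ : (H →L[ℂ] H)ˣ).val * T.val) x = x := by rw [T.inv_mul]; rfl
    have h2 : (T⁻¹ : (H →L[ℂ] H)ˣ).val (T.val x) = x := h1
    rw [hx, map_zero] at h2
    exact h2.symm
  have hBu0 : B u0 - ζ • u0 = f := hT1 f
  have hin : ⟪f, u0⟫_ℂ = ∫ s : ℝ, 1 / ((s : ℂ) - ζ) ∂ν := hres f u0 ν hν' hBu0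
  have hsol : ∀ u : H, B (f + z • u + (c : ℂ) • u) = u ↔
      (B - ζ • 1 : H →L[ℂ] H) u = (-ζ) • B f := by
    intro u
    have h1 : f + z • u + (c : ℂ) • u = f + w • u := by rw [hw, add_smul]; abel
    rw [h1, map_add, map_smul]
    show B f + w • B u = u ↔ B u - ζ • u = (-ζ) • B f
    constructor
    · intro h
      have h2 : ζ • (B f + w • B u) = ζ • u := by rw [h]
      rw [smul_add, smul_smul, mul_comm ζ w, hwζ, one_smul] at h2
      rw [← h2, neg_smul]
      abel
    · intro h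
      have h2 : w • (B u - ζ • u) = w • ((-ζ) • B f) := by rw [h]
      rw [smul_sub, smul_smul, smul_smul, mul_neg, hwζ, one_smul, neg_smul, one_smul] at h2
      have h3 : w • B u = u - B f := by
        rw [sub_eq_iff_eq_add] at h2
        rw [h2]; abel
      rw [h3]; abel
  refine ⟨(-ζ) • B u0, ?_, ?_, ?_⟩
  · rw [hsol]
    have h1 : (B - ζ • 1 : H →L[ℂ] H) ((-ζ) • B u0) = (-ζ) • B (B u0 - ζ • u0) := by
      show B ((-ζ) • B u0) - ζ • ((-ζ) • B u0) = _
      rw [map_smul, map_sub, map_smul, smul_sub, smul_smul ζ, smul_smul (-ζ), mul_comm ζ (-ζ)]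
    rw [h1, hBu0]
  · intro u' hu'
    rw [hsol] at hu'
    have h1 : (B - ζ • 1 : H →L[ℂ] H) ((-ζ) • B u0) = (-ζ) • B f := by
      have h1 : (B - ζ • 1 : H →L[ℂ] H) ((-ζ) • B u0) = (-ζ) • B (B u0 - ζ • u0) := by
        show B ((-ζ) • B u0) - ζ • ((-ζ) • B u0) = _
        rw [map_smul, map_sub, map_smul, smul_sub, smul_smul ζ, smul_smul (-ζ), mul_comm ζ (-ζ)]
      rw [h1, hBu0]
    have h2 : (B - ζ • 1 : H →L[ℂ] H) (u' - (-ζ) • B u0) = 0 := by
      rw [map_sub, hu', h1, sub_self]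
    exact sub_eq_zero.1 (hT2 _ h2)
  · -- the inner product
    obtain ⟨hfin, hsp⟩ := hν
    have hff : ⟪f, f⟫_ℂ = ∫ s : ℝ, (1 : ℂ) ∂ν := by
      obtain ⟨-, h2⟩ := hsp (fun _ => (1 : ℝ)) continuous_const
      rw [cfc_const_one ℝ B] at h2
      have h3 : ⟪f, (1 : H →L[ℂ] H) f⟫_ℂ = ⟪f, f⟫_ℂ := rfl
      rw [← h3, ← h2, ← integral_complex_ofReal]
      simp
    have hBu : B u0 = f + ζ • u0 := by rw [← hBu0]; abel
    have hbd : ∀ s : ℝ, ‖1 / ((s : ℂ) - ζ)‖ ≤ 1 / |ζ.im| := by
      intro s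
      rw [norm_div, norm_one]
      refine one_div_le_one_div_of_le (abs_pos.2 hζim) ?_
      have h1 : ((s : ℂ) - ζ).im = -ζ.im := by simp
      rw [← abs_neg ζ.im, ← h1]
      exact Complex.abs_im_le_norm _
    have hne : ∀ s : ℝ, (s : ℂ) - ζ ≠ 0 := by
      intro s h
      apply hζim
      have h1 : ((s : ℂ) - ζ).im = -ζ.im := by simp
      rw [h] at h1
      simpa using h1.symm
    have hcont : Continuous fun s : ℝ => 1 / ((s : ℂ) - ζ) :=
      continuous_const.div (Complex.continuous_ofReal.sub continuous_const) hne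
    have hint : Integrable (fun s : ℝ => 1 / ((s : ℂ) - ζ)) ν :=
      Integrable.of_bound hcont.aestronglyMeasurable (1 / |ζ.im|) (Eventually.of_forall hbd)
    have hmeas : Measurable fun t : ℝ => 1 / t - c := by fun_prop
    rw [integral_map hmeas.aemeasurable (by
      apply Measurable.aestronglyMeasurable
      fun_prop)]
    rw [inner_smul_right, hBu, inner_add_right, inner_smul_right, hin, hff,
      ← integral_const_mul, ← integral_add (integrable_const _) (hint.const_mul ζ),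
      ← integral_const_mul]
    refine integral_congr_ae ?_
    have hae : ∀ᵐ t ∂ν, 0 < t := by
      rw [ae_iff]
      refine measure_mono_null ?_ hIic
      intro t ht
      exact not_lt.1 ht
    filter_upwards [hae] with t ht
    have ht0 : (t : ℂ) ≠ 0 := by exact_mod_cast ht.ne'
    have h1 : (((1 / t - c : ℝ)) : ℂ) - z = 1 / (t : ℂ) - w := by
      rw [hw]; push_cast; ring
    rw [h1]
    have h2 : (1 : ℂ) / t - w ≠ 0 := by
      intro h
      apply hwim
      have h3 : w = ((1 / t : ℝ) : ℂ) := by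
        rw [sub_eq_zero] at h
        rw [← h]; push_cast; rfl
      rw [h3, Complex.ofReal_im]
    exact alg ht0 hw0 h2

end Pool.Agent.H302.LK
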